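import Pool.Agent.helper52.WP.SpecC

set_option autoImplicit false

open Complex Metric Set Filter Topology MeasureTheory
open V3S (UF)
open WP

noncomputable section

namespace WPC

open Classical in
theorem AFX_sum (hNPK : V3.NPK_stmt) (hNSU : V3.NSU_stmt) (k : ℕ) (q g : ℕ → ℂ) (c K C ρ δ : ℝ)
    (hc : 0 < c) (hc1 : c ≤ 1) (hK : 0 ≤ K) (hC : 1 ≤ C) (hρ : 1 ≤ ρ) (hδ : 0 < δ) (hδ1 : δ ≤ 1)
    (hsep : ∀ j < k, ∀ l < k, j ≠ l → c ≤ ‖q j - q l‖) (hg : ∀ j < k, ‖g j‖ ≤ K)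
    (hbd : ∀ j, 1 ≤ j → j < k → 1 / C ≤ ‖q j‖) (x : ℂ) (hx : ‖x‖ ≤ ρ) (hd : ∀ j < k, δ ≤ ‖x - q j‖) :
    ‖∑ j ∈ Finset.Ico 1 k, g j * (x ^ 2 / (q j ^ 2 * (x - q j)))‖ ≤
      K * ((1 + 4 * ρ / c) ^ 2 * (ρ ^ 2 * C ^ 2) + 50 * ρ / c ^ 2) / δ := by
  have hC0 : 0 < C := by linarith
  have hρ0 : 0 < ρ := by linarith
  set S := Finset.Ico 1 k with hS
  have hmem : ∀ j ∈ S, 1 ≤ j ∧ j < k := fun j hj => Finset.mem_Ico.1 hj
  set Sn := S.filter (fun j => ‖q j‖ < 2 * ρ) with hSn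
  set Sf := S.filter (fun j => ¬ ‖q j‖ < 2 * ρ) with hSf
  have hsplit : ∑ j ∈ S, ‖g j * (x ^ 2 / (q j ^ 2 * (x - q j)))‖ =
      ∑ j ∈ Sn, ‖g j * (x ^ 2 / (q j ^ 2 * (x - q j)))‖ + ∑ j ∈ Sf, ‖g j * (x ^ 2 / (q j ^ 2 * (x - q j)))‖ :=
    (Finset.sum_filter_add_sum_filter_not S _ _).symm
  have hx2 : ‖x‖ ^ 2 ≤ ρ ^ 2 := pow_le_pow_left₀ (norm_nonneg _) hx 2
  -- near part
  have hcard : (Sn.card : ℝ) ≤ (1 + 2 * (2 * ρ) / c) ^ 2 := by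
    refine hNPK ℕ q Sn c (2 * ρ) hc (by positivity) ?_ ?_
    · intro i hi l hl hil
      exact hsep i (hmem i (Finset.mem_filter.1 hi).1).2 l (hmem l (Finset.mem_filter.1 hl).1).2 hil
    · intro i hi
      exact (Finset.mem_filter.1 hi).2
  have hnear : ∑ j ∈ Sn, ‖g j * (x ^ 2 / (q j ^ 2 * (x - q j)))‖ ≤
      (1 + 4 * ρ / c) ^ 2 * (K * (ρ ^ 2 * C ^ 2 / δ)) := by
    have h1 : ∀ j ∈ Sn, ‖g j * (x ^ 2 / (q j ^ 2 * (x - q j)))‖ ≤ K * (ρ ^ 2 * C ^ 2 / δ) := by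
      intro j hj
      have hjS := hmem j (Finset.mem_filter.1 hj).1
      have hq := hbd j hjS.1 hjS.2
      have hqp : 0 < ‖q j‖ := lt_of_lt_of_le (by positivity) hq
      have hdj := hd j hjS.2
      have hdp : 0 < ‖x - q j‖ := lt_of_lt_of_le hδ hdj
      rw [norm_mul, norm_div, norm_pow, norm_mul, norm_pow]
      refine mul_le_mul (hg j hjS.2) ?_ (by positivity) hK
      have h3 : (1 / C) ^ 2 * δ ≤ ‖q j‖ ^ 2 * ‖x - q j‖ :=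
        mul_le_mul (pow_le_pow_left₀ (by positivity) hq 2) hdj hδ.le (by positivity)
      calc ‖x‖ ^ 2 / (‖q j‖ ^ 2 * ‖x - q j‖) ≤ ρ ^ 2 / ((1 / C) ^ 2 * δ) :=
            div_le_div₀ (by positivity) hx2 (by positivity) h3
        _ = ρ ^ 2 * C ^ 2 / δ := by field_simp
    calc ∑ j ∈ Sn, ‖g j * (x ^ 2 / (q j ^ 2 * (x - q j)))‖ ≤ ∑ _j ∈ Sn, K * (ρ ^ 2 * C ^ 2 / δ) :=
          Finset.sum_le_sum h1
      _ = (Sn.card : ℝ) * (K * (ρ ^ 2 * C ^ 2 / δ)) := by rw [Finset.sum_const, nsmul_eq_mul]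
      _ ≤ (1 + 4 * ρ / c) ^ 2 * (K * (ρ ^ 2 * C ^ 2 / δ)) := by
          refine mul_le_mul_of_nonneg_right ?_ (by positivity)
          have : 2 * (2 * ρ) / c = 4 * ρ / c := by ring
          rw [← this]; exact hcard
  -- far part
  have hfar : ∑ j ∈ Sf, ‖g j * (x ^ 2 / (q j ^ 2 * (x - q j)))‖ ≤ K * (50 * ρ / c ^ 2) := by
    have hN := hNSU ℕ q Sf c (2 * ρ) hc (by linarith) (fun i hi l hl hil =>
      hsep i (hmem i (Finset.mem_filter.1 hi).1).2 l (hmem l (Finset.mem_filter.1 hl).1).2 hil)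
      (fun i hi => not_lt.1 (Finset.mem_filter.1 hi).2)
    have h1 : ∀ j ∈ Sf, ‖g j * (x ^ 2 / (q j ^ 2 * (x - q j)))‖ ≤ (2 * K * ρ ^ 2) * (1 / ‖q j‖ ^ 3) := by
      intro j hj
      have hjS := hmem j (Finset.mem_filter.1 hj).1
      have hq : 2 * ρ ≤ ‖q j‖ := not_lt.1 (Finset.mem_filter.1 hj).2
      have hqp : 0 < ‖q j‖ := by linarith
      have hdj : ‖q j‖ / 2 ≤ ‖x - q j‖ := by
        have := norm_sub_norm_le (q j) x
        rw [norm_sub_rev] at this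
        linarith
      rw [norm_mul, norm_div, norm_pow, norm_mul, norm_pow]
      calc ‖g j‖ * (‖x‖ ^ 2 / (‖q j‖ ^ 2 * ‖x - q j‖)) ≤ K * (ρ ^ 2 / (‖q j‖ ^ 2 * (‖q j‖ / 2))) := by
            refine mul_le_mul (hg j hjS.2) ?_ (by positivity) hK
            exact div_le_div₀ (by positivity) hx2 (by positivity)
              (mul_le_mul_of_nonneg_left hdj (by positivity))
        _ = (2 * K * ρ ^ 2) * (1 / ‖q j‖ ^ 3) := by field_simp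
    calc ∑ j ∈ Sf, ‖g j * (x ^ 2 / (q j ^ 2 * (x - q j)))‖ ≤ ∑ j ∈ Sf, (2 * K * ρ ^ 2) * (1 / ‖q j‖ ^ 3) :=
          Finset.sum_le_sum h1
      _ = (2 * K * ρ ^ 2) * ∑ j ∈ Sf, 1 / ‖q j‖ ^ 3 := by rw [Finset.mul_sum]
      _ ≤ (2 * K * ρ ^ 2) * (50 / (c ^ 2 * (2 * ρ))) := mul_le_mul_of_nonneg_left hN (by positivity)
      _ = K * (50 * ρ / c ^ 2) := by field_simp
  have hfar2 : K * (50 * ρ / c ^ 2) ≤ K * (50 * ρ / c ^ 2) / δ := by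
    rw [le_div_iff₀ hδ]
    exact mul_le_of_le_one_right (by positivity) hδ1
  calc ‖∑ j ∈ S, g j * (x ^ 2 / (q j ^ 2 * (x - q j)))‖ ≤ ∑ j ∈ S, ‖g j * (x ^ 2 / (q j ^ 2 * (x - q j)))‖ :=
        norm_sum_le _ _
    _ ≤ (1 + 4 * ρ / c) ^ 2 * (K * (ρ ^ 2 * C ^ 2 / δ)) + K * (50 * ρ / c ^ 2) / δ := by
        rw [hsplit]; exact add_le_add hnear (hfar.trans hfar2)
    _ = K * ((1 + 4 * ρ / c) ^ 2 * (ρ ^ 2 * C ^ 2) + 50 * ρ / c ^ 2) / δ := by ring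

theorem AFX (hCB1 : CB1_stmt) (hCB2 : CB2_stmt) (hNPK : V3.NPK_stmt) (hNSU : V3.NSU_stmt) : AFX_stmt := by
  intro C ρ hC hρ
  obtain ⟨c₀, hc₀, K, hK1, hK⟩ := hCB2 C hC
  have hK0 : 0 ≤ K := by linarith
  set c := min c₀ 1 with hcdef
  have hc : 0 < c := lt_min hc₀ one_pos
  have hρ0 : 0 < ρ := by linarith
  refine ⟨3 * (K + K * ((1 + 4 * ρ / c) ^ 2 * (ρ ^ 2 * C ^ 2) + 50 * ρ / c ^ 2)), by positivity, ?_⟩
  intro n A D hD δ hδ hδ1 x hx hdist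
  obtain ⟨_, _, _, _, h5, _, h7, h8, _⟩ := hK n A D hD
  have hxn : ‖x‖ ≤ ρ := by simpa using hx
  have hk := hD.hk
  have hC0 : 0 < C := by linarith
  have hcb := hCB1 D hD.rho
  -- the points with 1 ≤ j are away from 0
  have hai : ∀ i : Fin 3, D.a i ∈ ball (0 : ℂ) (1 / C) := by
    intro i
    rw [mem_ball_zero_iff]
    refine lt_of_le_of_lt (hD.pt i) ?_
    rw [div_lt_div_iff₀ (by positivity) hC0]
    linarith
  have hbd : ∀ i : Fin 3, ∀ j, 1 ≤ j → j < D.k → 1 / C ≤ ‖D.p i j‖ := fun i j h1 h2 => h8 j h1 h2 _ (hai i)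
  have hgb : ∀ i : Fin 3, ∀ j < D.k, ‖D.g i j‖ ≤ K := fun i j hj => h5 i j hj.le
  have key : D.B0 x - D.ca - D.cb * x = ∑ i : Fin 3, (D.g i 0 / (x - D.p i 0) +
      ∑ j ∈ Finset.Ico 1 D.k, D.g i j * (x ^ 2 / (D.p i j ^ 2 * (x - D.p i j)))) := by
    unfold Dat.B0 Dat.ca Dat.cb
    rw [neg_mul, sub_neg_eq_add, sub_neg_eq_add, Finset.sum_mul, ← Finset.sum_add_distrib, ← Finset.sum_add_distrib]
    refine Finset.sum_congr rfl fun i _ => ?_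
    rw [Finset.range_eq_Ico, Finset.sum_eq_sum_Ico_succ_bot (by omega : 0 < D.k), add_assoc, add_assoc]
    congr 1
    rw [Finset.sum_mul, ← Finset.sum_add_distrib, ← Finset.sum_add_distrib]
    refine Finset.sum_congr rfl fun j hj => ?_
    have hj' := Finset.mem_Ico.1 hj
    have hp : D.p i j ≠ 0 := by
      intro h0
      have := hbd i j (by omega) hj'.2
      rw [h0, norm_zero] at this
      have : (0 : ℝ) < 1 / C := by positivity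
      linarith
    have hxp : x - D.p i j ≠ 0 := by
      intro h0
      have := hdist i j hj'.2
      rw [h0, norm_zero] at this
      linarith
    field_simp
    ring
  rw [key]
  have hterm : ∀ i : Fin 3, ‖D.g i 0 / (x - D.p i 0) +
      ∑ j ∈ Finset.Ico 1 D.k, D.g i j * (x ^ 2 / (D.p i j ^ 2 * (x - D.p i j)))‖ ≤
      (K + K * ((1 + 4 * ρ / c) ^ 2 * (ρ ^ 2 * C ^ 2) + 50 * ρ / c ^ 2)) / δ := by
    intro i
    have h1 : ‖D.g i 0 / (x - D.p i 0)‖ ≤ K / δ := by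
      rw [norm_div]
      exact div_le_div₀ hK0 (hgb i 0 (by omega)) hδ (hdist i 0 (by omega))
    have h2 := AFX_sum hNPK hNSU D.k (D.p i) (D.g i) c K C ρ δ hc (min_le_right _ _) hK0 hC hρ hδ hδ1
      (fun j hj l hl hjl => (min_le_left _ _).trans (h7 i j hj l hl hjl).1) (hgb i) (hbd i) x hxn (hdist i)
    calc _ ≤ ‖D.g i 0 / (x - D.p i 0)‖ + ‖∑ j ∈ Finset.Ico 1 D.k, D.g i j * (x ^ 2 / (D.p i j ^ 2 * (x - D.p i j)))‖ :=
          norm_add_le _ _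
      _ ≤ K / δ + K * ((1 + 4 * ρ / c) ^ 2 * (ρ ^ 2 * C ^ 2) + 50 * ρ / c ^ 2) / δ := add_le_add h1 h2
      _ = _ := by ring
  calc _ ≤ ∑ i : Fin 3, ‖D.g i 0 / (x - D.p i 0) +
      ∑ j ∈ Finset.Ico 1 D.k, D.g i j * (x ^ 2 / (D.p i j ^ 2 * (x - D.p i j)))‖ := norm_sum_le _ _
    _ ≤ ∑ _i : Fin 3, (K + K * ((1 + 4 * ρ / c) ^ 2 * (ρ ^ 2 * C ^ 2) + 50 * ρ / c ^ 2)) / δ :=
        Finset.sum_le_sum fun i _ => hterm i
    _ = 3 * (K + K * ((1 + 4 * ρ / c) ^ 2 * (ρ ^ 2 * C ^ 2) + 50 * ρ / c ^ 2)) / δ := by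
        rw [Finset.sum_const, Finset.card_univ, Fintype.card_fin, nsmul_eq_mul]; push_cast; ring

end WPC
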